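import Pool.Agent.Lib.MP_743d1e_nt.GX.TWR

/-!
# MTK: the theorem of Milnor and Tate for `k(t)`
-/

set_option autoImplicit false

namespace MP743d1e.GX

open MP743d1e.Span
open Polynomial

namespace MTKM

variable {k F : Type} [Field k] [Field F] [Algebra k F] {t : F}

section Basic

theorem aeval_inj (h : IsRat k F t) {p q : k[X]} (e : aeval t p = aeval t q) : p = q :=
  transcendental_iff_injective.1 h.transc e

theorem aeval_ne (h : IsRat k F t) {p : k[X]} (hp : p ≠ 0) : aeval t p ≠ 0 := by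
  intro h0
  exact hp (aeval_inj h (by rw [h0, map_zero]))

theorem exists_frac (h : IsRat k F t) (f : Fˣ) : ∃ p q : k[X], p ≠ 0 ∧ q ≠ 0 ∧
    (f : F) * aeval t q = aeval t p := by
  have h1 : (f : F) ∈ IntermediateField.adjoin k {t} := by
    rw [h.gen]
    exact IntermediateField.mem_top
  obtain ⟨p, q, e⟩ := IntermediateField.mem_adjoin_simple_iff k (f : F) |>.1 h1
  have hq : aeval t q ≠ 0 := by
    intro h0
    rw [h0, div_zero] at e
    exact f.ne_zero e
  have hq0 : q ≠ 0 := by
    rintro rfl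
    exact hq (map_zero _)
  have e2 : (f : F) * aeval t q = aeval t p := by
    rw [e]
    field_simp
  have hp0 : p ≠ 0 := by
    rintro rfl
    rw [map_zero] at e2
    exact (mul_ne_zero f.ne_zero hq) e2
  exact ⟨p, q, hp0, hq0, e2⟩

end Basic

variable (k t) in
/-- The polynomials of degree less than `d`. -/
def G (d : ℕ) : Set Fˣ := {f | ∃ p : k[X], p ≠ 0 ∧ p.natDegree < d ∧ (f : F) = aeval t p}

variable (k t) in
/-- The group generated by the polynomials of degree less than `d`. -/
def S (d : ℕ) : Subgroup Fˣ := Subgroup.closure (G k t d)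

theorem G_mono {d e : ℕ} (h : d ≤ e) : G k t d ⊆ G k t e := by
  rintro f ⟨p, hp, hd, hf⟩
  exact ⟨p, hp, by omega, hf⟩

theorem S_mono {d e : ℕ} (h : d ≤ e) : S k t d ≤ S k t e := Subgroup.closure_mono (G_mono h)

theorem G_sub (d : ℕ) : G k t d ⊆ (S k t d : Set Fˣ) := Subgroup.subset_closure

theorem symS_mono {S T : Subgroup Fˣ} (h : S ≤ T) : symS S ≤ symS T := by
  apply AddSubgroup.closure_mono
  rintro _ ⟨a, ha, b, hb, rfl⟩
  exact ⟨a, h ha, b, h hb, rfl⟩

/-- The unit attached to a nonzero polynomial. -/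
noncomputable def pu (h : IsRat k F t) (p : k[X]) (hp : p ≠ 0) : Fˣ :=
  Units.mk0 (aeval t p) (aeval_ne h hp)

theorem pu_mem (h : IsRat k F t) (p : k[X]) (hp : p ≠ 0) {d : ℕ} (hd : p.natDegree < d) :
    pu h p hp ∈ S k t d := G_sub d ⟨p, hp, hd, rfl⟩

theorem exists_S (h : IsRat k F t) (f : Fˣ) : ∃ d, f ∈ S k t d := by
  obtain ⟨p, q, hp, hq, e⟩ := exists_frac h f
  refine ⟨max p.natDegree q.natDegree + 1, ?_⟩
  have e1 : f = pu h p hp * (pu h q hq)⁻¹ := by
    rw [eq_mul_inv_iff_mul_eq]
    apply Units.ext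
    rw [Units.val_mul]
    exact e
  rw [e1]
  exact mul_mem (pu_mem h p hp (by omega)) (inv_mem (pu_mem h q hq (by omega)))

theorem exists_symS (h : IsRat k F t) (α : K2 F) : ∃ d, α ∈ symS (S k t d) := by
  induction α using QuotientAddGroup.induction_on with
  | H z =>
    induction z using FreeAbelianGroup.induction_on with
    | zero => exact ⟨0, zero_mem _⟩
    | of x =>
      obtain ⟨d, hd⟩ := exists_S h x.1
      obtain ⟨e, he⟩ := exists_S h x.2
      exact ⟨max d e, MTSM.sym_mem (S_mono (le_max_left _ _) hd) (S_mono (le_max_right _ _) he)⟩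
    | neg x ih =>
      obtain ⟨d, hd⟩ := ih
      exact ⟨d, neg_mem hd⟩
    | add x y hx hy =>
      obtain ⟨d, hd⟩ := hx
      obtain ⟨e, he⟩ := hy
      exact ⟨max d e, add_mem (symS_mono (S_mono (le_max_left _ _)) hd)
        (symS_mono (S_mono (le_max_right _ _)) he)⟩

theorem symS_one {α : K2 F} (hα : α ∈ symS (S k t 1)) :
    ∃ β : K2 k, mk2 k F β = α := by
  have h1 : S k t 1 ≤ (um k F).range := by
    unfold S
    rw [Subgroup.closure_le]
    rintro f ⟨p, hp, hd, hf⟩
    have h0 : p.natDegree = 0 := by omega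
    rw [natDegree_eq_zero] at h0
    obtain ⟨c, rfl⟩ := h0
    have hc : c ≠ 0 := by
      rintro rfl
      exact hp (map_zero _)
    refine ⟨Units.mk0 c hc, ?_⟩
    apply Units.ext
    rw [hf, aeval_C]
    rfl
  have h2 : symS (S k t 1) ≤ (mk2 k F).range := by
    unfold symS
    rw [AddSubgroup.closure_le]
    rintro _ ⟨a, ha, b, hb, rfl⟩
    obtain ⟨a', rfl⟩ := h1 ha
    obtain ⟨b', rfl⟩ := h1 hb
    exact ⟨sym a' b', ConstM.mapK_sym _ a' b'⟩
  exact h2 hα

/-! ### Places -/

section Place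

variable {π : k[X]} {v : DVal F}

theorem ord_zero (hv : IsPl t π v) {p : k[X]} {f : Fˣ} (hf : (f : F) = aeval t p)
    (h : ¬ π ∣ p) : v.ord f = 0 := by
  rw [hv p f hf, multiplicity_eq_zero.2 h]
  rfl

theorem dvd_of_ord (hv : IsPl t π v) {p : k[X]} {f : Fˣ} (hf : (f : F) = aeval t p)
    (h : 1 ≤ v.ord f) : π ∣ p := by
  by_contra hn
  rw [ord_zero hv hf hn] at h
  omega

theorem ord_self (hv : IsPl t π v) {f : Fˣ} (hf : (f : F) = aeval t π) :
    v.ord f = 1 := by
  rw [hv π f hf, multiplicity_self]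
  rfl

theorem not_dvd_of_lt {p : k[X]} (hp : p ≠ 0) (hd : p.natDegree < π.natDegree) : ¬ π ∣ p := by
  intro h
  have := natDegree_le_of_dvd h hp
  omega

theorem ord_S (hv : IsPl t π v) {d : ℕ} (hd : d ≤ π.natDegree) :
    ∀ s ∈ S k t d, v.ord s = 0 := by
  intro s hs
  unfold S at hs
  induction hs using Subgroup.closure_induction with
  | mem x hx =>
    obtain ⟨p, hp, hlt, hx⟩ := hx
    exact ord_zero hv hx (not_dvd_of_lt hp (by omega))
  | one => exact v.ord_one
  | mul a b _ _ ha hb => rw [v.ord_mul, ha, hb, add_zero]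
  | inv a _ ha => rw [v.ord_inv, ha, neg_zero]

theorem not_dvd_of_monic {π' : k[X]} (h1 : π.Monic) (h2 : Irreducible π) (h1' : π'.Monic)
    (h2' : Irreducible π') (hne : π' ≠ π) : ¬ π ∣ π' := by
  intro h
  have h3 : Associated π π' := h2.associated_of_dvd h2' h
  exact hne (eq_of_monic_of_associated h1 h1' h3).symm

/-- The main step of Milnor and Tate for polynomials. -/
theorem step (hM : SpecMTS) (h : IsRat k F t) (h1 : π.Monic) (h2 : Irreducible π)
    (hv : IsPl t π v) (s : Fˣ) (hs : s ∈ S k t π.natDegree) (hone : v.IsOne s) :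
    sym s (pu h π h2.ne_zero) ∈ symS (S k t π.natDegree) := by
  have hd0 : 0 < π.natDegree := h2.natDegree_pos
  refine hM F v (S k t π.natDegree) (G k t π.natDegree) (G k t π.natDegree) (pu h π h2.ne_zero)
    (ord_self hv rfl) (ord_S hv le_rfl) rfl (G_sub _) ?_ ?_ ?_ s hs hone
  · exact ⟨pu h 1 one_ne_zero, 1, one_ne_zero, by rw [natDegree_one]; exact hd0, rfl⟩
  · rintro g ⟨p, hp, hpd, hg⟩ r ⟨q, hq, hqd, hr⟩
    have hprime : Prime π := h2.prime
    have hnd : ¬ π ∣ p * q := by
      intro h3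
      rcases hprime.dvd_or_dvd h3 with h4 | h4
      · exact not_dvd_of_lt hp hpd h4
      · exact not_dvd_of_lt hq hqd h4
    have hr0 : (p * q) %ₘ π ≠ 0 := by
      intro h3
      exact hnd ((modByMonic_eq_zero_iff_dvd h1).1 h3)
    have hrd : ((p * q) %ₘ π).natDegree < π.natDegree :=
      natDegree_modByMonic_lt _ h1 (by
        intro h3
        rw [h3, natDegree_one] at hd0
        omega)
    have hdiv : (p * q) %ₘ π + π * ((p * q) /ₘ π) = p * q := modByMonic_add_div _ _
    refine ⟨pu h _ hr0, ⟨_, hr0, hrd, rfl⟩, ?_⟩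
    by_cases hh : (p * q) /ₘ π = 0
    · left
      rw [hh, mul_zero, add_zero] at hdiv
      apply Units.ext
      rw [Units.val_mul, hg, hr, ← map_mul]
      show aeval t (p * q) = aeval t ((p * q) %ₘ π)
      rw [hdiv]
    · right
      have hhd : ((p * q) /ₘ π).natDegree < π.natDegree := by
        rw [natDegree_divByMonic _ h1]
        have := natDegree_mul_le (p := p) (q := q)
        omega
      refine ⟨pu h _ hh, pu_mem h _ hh hhd, ?_⟩
      rw [hg, hr, ← map_mul]
      show aeval t (p * q) = aeval t ((p * q) %ₘ π) + aeval t ((p * q) /ₘ π) * aeval t π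
      rw [← map_mul, ← map_add]
      congr 1
      rw [mul_comm ((p * q) /ₘ π) π]
      exact hdiv.symm
  · rintro r ⟨p, hp, hpd, hr⟩ r' ⟨q, hq, hqd, hr'⟩ hone'
    by_contra hne
    have hne2 : r * r'⁻¹ ≠ 1 := by
      intro h3
      exact hne (mul_inv_eq_one.1 h3)
    rcases hone' with h3 | ⟨u, hu, hu1⟩
    · exact hne2 h3
    · have hr'0 : (r' : F) ≠ 0 := r'.ne_zero
      have e : ((u * r' : Fˣ) : F) = aeval t (p - q) := by
        rw [Units.val_mul, ← hu, Units.val_mul, map_sub, ← hr, ← hr']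
        rw [Units.val_inv_eq_inv_val]
        field_simp
      have h4 : 1 ≤ v.ord (u * r') := by
        rw [v.ord_mul, ord_zero hv hr' (not_dvd_of_lt hq hqd), add_zero]
        exact hu1
      have h5 := dvd_of_ord hv e h4
      have h6 : p - q ≠ 0 := by
        intro h7
        rw [h7, map_zero] at e
        exact (u * r').ne_zero e
      exact not_dvd_of_lt h6 (lt_of_le_of_lt (natDegree_sub_le p q) (max_lt hpd hqd)) h5

theorem step' (hM : SpecMTS) (h : IsRat k F t) (h1 : π.Monic) (h2 : Irreducible π)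
    (hv : IsPl t π v) {d : ℕ} (hd : π.natDegree = d) (s : Fˣ) (hs : s ∈ S k t d)
    (hone : v.IsOne s) : sym s (pu h π h2.ne_zero) ∈ symS (S k t d) := by
  subst hd
  exact step hM h h1 h2 hv s hs hone

end Place

/-! ### The decomposition -/

section Decomp

variable (k) in
/-- The monic irreducible polynomials of degree `d`. -/
abbrev Pol (d : ℕ) : Type := {π : k[X] // π.Monic ∧ Irreducible π ∧ π.natDegree = d}

/-- The unit of a monic irreducible polynomial. -/
noncomputable def e (h : IsRat k F t) {d : ℕ} (π : Pol k d) : Fˣ := pu h π.1 π.2.2.1.ne_zero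

/-- The group generated by the symbols `{s, π}` and those of smaller degree. -/
def Q (h : IsRat k F t) (d : ℕ) : AddSubgroup (K2 F) :=
  AddSubgroup.closure ({z | ∃ s ∈ S k t d, ∃ π : Pol k d, z = sym s (e h π)} ∪ symS (S k t d))

theorem Q1 (h : IsRat k F t) {d : ℕ} {s : Fˣ} (hs : s ∈ S k t d) (π : Pol k d) :
    sym s (e h π) ∈ Q h d := AddSubgroup.subset_closure (Or.inl ⟨s, hs, π, rfl⟩)

theorem Q2 (h : IsRat k F t) {d : ℕ} {z : K2 F} (hz : z ∈ symS (S k t d)) : z ∈ Q h d :=
  AddSubgroup.subset_closure (Or.inr hz)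

theorem sym_neg (a b : Fˣ) : sym a b = - sym b a :=
  eq_neg_of_add_eq_zero_left (s_anti a b)

theorem neg_one_mem {d : ℕ} (hd : 1 ≤ d) : (-1 : Fˣ) ∈ S k t d := by
  refine G_sub d ⟨-1, by simp, ?_, ?_⟩
  · rw [natDegree_neg, natDegree_one]
    omega
  · simp

/-- The symbols of two polynomials of degree `d`. -/
theorem Q3 (h : IsRat k F t) {d : ℕ} (hd : 1 ≤ d) (π π' : Pol k d) :
    sym (e h π) (e h π') ∈ Q h d := by
  by_cases hne : π = π'
  · subst hne
    rw [s_self, sym_neg]
    exact neg_mem (Q1 h (neg_one_mem hd) π)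
  · have hne1 : π'.1 - π.1 ≠ 0 := by
      intro h3
      exact hne (Subtype.ext (sub_eq_zero.1 h3).symm)
    have hdeg : (π'.1 - π.1).natDegree < d := by
      have h4 : (π'.1 - π.1).degree < π'.1.degree := by
        apply degree_sub_lt_left
        · rw [degree_eq_natDegree π'.2.1.ne_zero, degree_eq_natDegree π.2.1.ne_zero, π'.2.2.2,
            π.2.2.2]
        · exact π'.2.1.ne_zero
        · rw [π'.2.1.leadingCoeff, π.2.1.leadingCoeff]
      have h5 := natDegree_lt_natDegree hne1 h4
      rwa [π'.2.2.2] at h5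
    let η := pu h _ hne1
    have hη : η ∈ S k t d := pu_mem h _ hne1 hdeg
    have key : sym (e h π / e h π') (η / e h π') = 0 := by
      apply sst
      have h6 : (e h π' : F) ≠ 0 := Units.ne_zero _
      rw [Units.val_div_eq_div_val, Units.val_div_eq_div_val, ← add_div, div_eq_one_iff_eq h6]
      show aeval t π.1 + aeval t (π'.1 - π.1) = aeval t π'.1
      rw [← map_add]
      congr 1
      ring
    rw [sdl, sdr, sdr, s_self (e h π')] at key
    have h7 : sym (e h π) (e h π') =
        sym (e h π) η - sym (e h π') η + sym (e h π') (-1) := by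
      rw [← sub_eq_zero, ← neg_eq_zero]
      rw [← key]
      abel
    rw [h7, sym_neg (e h π) η, sym_neg (e h π') η, sym_neg (e h π') (-1)]
    exact add_mem (sub_mem (neg_mem (Q1 h hη π)) (neg_mem (Q1 h hη π')))
      (neg_mem (Q1 h (neg_one_mem hd) π'))

theorem pos_deg {a : k[X]} (ha : ¬ IsUnit a) (ha0 : a ≠ 0) : 0 < a.natDegree := by
  rw [Nat.pos_iff_ne_zero]
  intro h0
  rw [natDegree_eq_zero] at h0
  obtain ⟨c, rfl⟩ := h0
  apply ha
  rw [isUnit_C]
  exact isUnit_iff_ne_zero.2 (fun h => ha0 (by rw [h, map_zero]))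

/-- The generators of degree `d`. -/
def Gen (h : IsRat k F t) (d : ℕ) : Set Fˣ := G k t d ∪ {f | ∃ π : Pol k d, f = e h π}

theorem S_succ (h : IsRat k F t) {d : ℕ} (hd : 1 ≤ d) :
    S k t (d + 1) ≤ Subgroup.closure (Gen h d) := by
  unfold S
  rw [Subgroup.closure_le]
  rintro f ⟨p, hp, hpd, hf⟩
  have hsub : S k t d ≤ Subgroup.closure (Gen h d) :=
    Subgroup.closure_mono Set.subset_union_left
  by_cases hlt : p.natDegree < d
  · exact hsub (G_sub d ⟨p, hp, hlt, hf⟩)
  have heq : p.natDegree = d := by omega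
  by_cases hirr : Irreducible p
  · have hlc : p.leadingCoeff ≠ 0 := leadingCoeff_ne_zero.2 hp
    have hm : (p * C p.leadingCoeff⁻¹).Monic := monic_mul_leadingCoeff_inv hp
    have hirr2 : Irreducible (p * C p.leadingCoeff⁻¹) := irreducible_mul_leadingCoeff_inv.2 hirr
    have hdeg : (p * C p.leadingCoeff⁻¹).natDegree = d := by
      rw [natDegree_mul_C (inv_ne_zero hlc), heq]
    have e1 : f = pu h (C p.leadingCoeff) (by simpa using hp) * e h ⟨_, hm, hirr2, hdeg⟩ := by
      apply Units.ext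
      rw [Units.val_mul, hf]
      show aeval t p = aeval t (C p.leadingCoeff) * aeval t (p * C p.leadingCoeff⁻¹)
      rw [← map_mul]
      congr 1
      rw [mul_left_comm, ← C_mul, mul_inv_cancel₀ hlc, C_1, mul_one]
    rw [e1]
    exact mul_mem (hsub (pu_mem h _ _ (by rw [natDegree_C]; omega)))
      (Subgroup.subset_closure (Or.inr ⟨_, rfl⟩))
  · -- a product of two polynomials of smaller degree
    have hnu : ¬ IsUnit p := by
      intro h3
      have := natDegree_eq_zero_of_isUnit h3
      omega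
    rw [irreducible_iff] at hirr
    push Not at hirr
    obtain ⟨a, b, hab, ha, hb⟩ := hirr hnu
    have ha0 : a ≠ 0 := by
      rintro rfl
      rw [zero_mul] at hab
      exact hp hab
    have hb0 : b ≠ 0 := by
      rintro rfl
      rw [mul_zero] at hab
      exact hp hab
    have hda : 0 < a.natDegree := pos_deg ha ha0
    have hdb : 0 < b.natDegree := pos_deg hb hb0
    have hsum : p.natDegree = a.natDegree + b.natDegree := by
      rw [hab, natDegree_mul ha0 hb0]
    have e1 : f = pu h a ha0 * pu h b hb0 := by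
      apply Units.ext
      rw [Units.val_mul, hf, hab, map_mul]
      rfl
    rw [e1]
    exact mul_mem (hsub (pu_mem h _ _ (by omega))) (hsub (pu_mem h _ _ (by omega)))

theorem symS_succ (h : IsRat k F t) {d : ℕ} (hd : 1 ≤ d) : symS (S k t (d + 1)) ≤ Q h d := by
  have gen : ∀ x ∈ Gen h d, ∀ y ∈ Gen h d, sym x y ∈ Q h d := by
    rintro x (hx | ⟨π, rfl⟩) y (hy | ⟨π', rfl⟩)
    · exact Q2 h (MTSM.sym_mem (G_sub d hx) (G_sub d hy))
    · exact Q1 h (G_sub d hx) π'
    · rw [sym_neg]
      exact neg_mem (Q1 h (G_sub d hy) π)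
    · exact Q3 h hd π π'
  have gen2 : ∀ x ∈ Gen h d, ∀ y ∈ Subgroup.closure (Gen h d), sym x y ∈ Q h d := by
    intro x hx y hy
    induction hy using Subgroup.closure_induction with
    | mem y hy => exact gen x hx y hy
    | one => rw [s1r]; exact zero_mem _
    | mul a b _ _ ha hb => rw [smr]; exact add_mem ha hb
    | inv a _ ha => rw [sir]; exact neg_mem ha
  unfold symS
  rw [AddSubgroup.closure_le]
  rintro _ ⟨a, ha, b, hb, rfl⟩
  have ha' := S_succ h hd ha
  have hb' := S_succ h hd hb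
  show sym a b ∈ Q h d
  clear ha hb
  induction ha' using Subgroup.closure_induction with
  | mem x hx => exact gen2 x hx b hb'
  | one => rw [s1l]; exact zero_mem _
  | mul a b _ _ ha hb => rw [sml]; exact add_mem ha hb
  | inv a _ ha => rw [sil]; exact neg_mem ha

/-- The sum of the symbols `{s π, π}`. -/
noncomputable def fs (h : IsRat k F t) {d : ℕ} (s : Pol k d →₀ Additive Fˣ) : K2 F :=
  s.sum fun π a => sym a.toMul (e h π)

theorem fs_add (h : IsRat k F t) {d : ℕ} (s s' : Pol k d →₀ Additive Fˣ) :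
    fs h (s + s') = fs h s + fs h s' := by
  unfold fs
  rw [Finsupp.sum_add_index']
  · intro a
    exact s1l _
  · intro a b c
    exact sml _ _ _

theorem fs_zero (h : IsRat k F t) {d : ℕ} : fs h (0 : Pol k d →₀ Additive Fˣ) = 0 :=
  Finsupp.sum_zero_index

theorem fs_neg (h : IsRat k F t) {d : ℕ} (s : Pol k d →₀ Additive Fˣ) :
    fs h (-s) = - fs h s := by
  have h1 := fs_add h s (-s)
  rw [add_neg_cancel, fs_zero] at h1
  exact (neg_eq_of_add_eq_zero_right h1.symm).symm

theorem fs_single (h : IsRat k F t) {d : ℕ} (π : Pol k d) (s : Fˣ) :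
    fs h (Finsupp.single π (Additive.ofMul s)) = sym s (e h π) := by
  unfold fs
  rw [Finsupp.sum_single_index]
  · rfl
  · exact s1l _

theorem Q_form (h : IsRat k F t) {d : ℕ} {z : K2 F} (hz : z ∈ Q h d) :
    ∃ s : Pol k d →₀ Additive Fˣ, (∀ π, (s π).toMul ∈ S k t d) ∧
      z - fs h s ∈ symS (S k t d) := by
  unfold Q at hz
  induction hz using AddSubgroup.closure_induction with
  | mem z hz =>
    rcases hz with ⟨s, hs, π, rfl⟩ | hz
    · refine ⟨Finsupp.single π (Additive.ofMul s), ?_, ?_⟩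
      · intro π'
        by_cases hπ : π = π'
        · subst hπ
          rw [Finsupp.single_eq_same]
          exact hs
        · rw [Finsupp.single_eq_of_ne' hπ]
          exact one_mem _
      · rw [fs_single, sub_self]
        exact zero_mem _
    · refine ⟨0, fun π => one_mem _, ?_⟩
      rw [fs_zero, sub_zero]
      exact hz
  | zero =>
    refine ⟨0, fun π => one_mem _, ?_⟩
    rw [fs_zero, sub_zero]
    exact zero_mem _
  | add x y _ _ hx hy =>
    obtain ⟨s, hs, hs'⟩ := hx
    obtain ⟨s2, hs2, hs2'⟩ := hy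
    refine ⟨s + s2, fun π => mul_mem (hs π) (hs2 π), ?_⟩
    rw [fs_add]
    have := add_mem hs' hs2'
    rwa [sub_add_sub_comm] at this
  | neg x _ hx =>
    obtain ⟨s, hs, hs'⟩ := hx
    refine ⟨-s, fun π => inv_mem (hs π), ?_⟩
    rw [fs_neg]
    have h1 := neg_mem hs'
    have h2 : -x - -fs h s = -(x - fs h s) := by abel
    rw [h2]
    exact h1

theorem descend (hM : SpecMTS) (hP : SpecPLF) (h : IsRat k F t) {d : ℕ} (hd : 1 ≤ d) {α : K2 F}
    (hα : α ∈ symS (S k t (d + 1)))
    (hu : ∀ π : k[X], π.Monic → Irreducible π → ∀ v : DVal F, IsPl t π v → tame v α = 0) :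
    α ∈ symS (S k t d) := by
  obtain ⟨s, hs, hz⟩ := Q_form h (symS_succ h hd hα)
  have key : ∀ π : Pol k d, sym (s π).toMul (e h π) ∈ symS (S k t d) := by
    intro π
    obtain ⟨v, hv⟩ := hP k F t h π.1 π.2.2.1
    have h1 : tame v (α - fs h s) = 0 := MTSM.tame_symS (ord_S hv (by rw [π.2.2.2])) hz
    have h2 : tame v (fs h s) = 0 := by
      have h8 : α - (α - fs h s) ∈ (tame v).ker :=
        sub_mem (AddMonoidHom.mem_ker.2 (hu π.1 π.2.1 π.2.2.1 v hv)) (AddMonoidHom.mem_ker.2 h1)
      rw [sub_sub_cancel] at h8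
      exact AddMonoidHom.mem_ker.1 h8
    have h3 : tame v (sym (s π).toMul (e h π)) = 0 := by
      rw [← h2]
      unfold fs Finsupp.sum
      rw [map_sum, Finset.sum_eq_single π]
      · intro π' _ hne
        rw [tame_sym_eq_zero]
        apply Integ.isOne_tame_units
        · exact ord_S hv (by rw [π.2.2.2]) _ (hs π')
        · exact ord_zero hv rfl (not_dvd_of_monic π.2.1 π.2.2.1 π'.2.1 π'.2.2.1
            (fun h4 => hne (Subtype.ext h4)))
      · intro hn
        rw [Finsupp.notMem_support_iff.1 hn]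
        show tame v (sym 1 _) = 0
        rw [s1l, map_zero]
    rw [tame_sym_eq_zero] at h3
    have h4 : v.tameUnit (s π).toMul (e h π) = (s π).toMul := by
      unfold DVal.tameUnit
      rw [ord_self hv (rfl : (e h π : F) = aeval t π.1), ord_S hv (by rw [π.2.2.2]) _ (hs π)]
      simp
    rw [h4] at h3
    exact step' hM h π.2.1 π.2.2.1 hv π.2.2.2 (s π).toMul (hs π) h3
  have h6 : fs h s ∈ symS (S k t d) := by
    unfold fs Finsupp.sum
    exact sum_mem fun π _ => key π
  have h7 := add_mem hz h6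
  rwa [sub_add_cancel] at h7

end Decomp

end MTKM

open MTKM in
theorem specMTK (hM : SpecMTS) (hP : SpecPLF) : SpecMTK := by
  intro k F _ _ _ t h α hu
  obtain ⟨d, hd⟩ := exists_symS h α
  have key : ∀ d : ℕ, α ∈ symS (S k t (d + 1)) → α ∈ symS (S k t 1) := by
    intro d
    induction d with
    | zero => exact id
    | succ d ih => exact fun h1 => ih (descend hM hP h (by omega) h1 hu)
  exact symS_one (key d (symS_mono (S_mono (Nat.le_succ d)) hd))

end MP743d1e.GX
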