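import Pool.Agent.Lib.MP_743d1e_nt.GX.Spec
import Pool.Agent.Lib.MP_743d1e_nt.Span

section
/-!
# CON: construction of discrete valuations of `k(t)`
-/
set_option autoImplicit false

namespace MP743d1e.GX

open scoped BigOperators Classical
open Polynomial

namespace CONM

variable {k F : Type} [Field k] [Field F] [Algebra k F] {t : F}

theorem inj (h : IsRat k F t) {p : k[X]} (hp : p ≠ 0) : aeval t p ≠ 0 := by
  have h1 := transcendental_iff_injective.1 h.transc
  intro h2
  exact hp (h1 (by rw [h2, map_zero]))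

theorem exists_rep (h : IsRat k F t) (f : Fˣ) : ∃ p q : k[X], p ≠ 0 ∧ q ≠ 0 ∧
    (f : F) * aeval t q = aeval t p := by
  have h1 : (f : F) ∈ IntermediateField.adjoin k {t} := by
    rw [h.gen]; exact IntermediateField.mem_top
  obtain ⟨r, s, hrs⟩ := (IntermediateField.mem_adjoin_simple_iff k (f : F)).1 h1
  have hs : aeval t s ≠ 0 := by
    intro h2
    rw [h2, div_zero] at hrs
    exact f.ne_zero hrs
  have hr : aeval t r ≠ 0 := by
    intro h2
    rw [h2, zero_div] at hrs
    exact f.ne_zero hrs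
  refine ⟨r, s, ?_, ?_, ?_⟩
  · rintro rfl; exact hr (map_zero _)
  · rintro rfl; exact hs (map_zero _)
  · rw [hrs, div_mul_cancel₀ _ hs]

/-- a unit from a fraction -/
theorem exists_unit (h : IsRat k F t) {p q : k[X]} (hp : p ≠ 0) (hq : q ≠ 0) :
    ∃ f : Fˣ, (f : F) * aeval t q = aeval t p := by
  refine ⟨Units.mk0 (aeval t p / aeval t q) (div_ne_zero (inj h hp) (inj h hq)), ?_⟩
  rw [Units.val_mk0, div_mul_cancel₀ _ (inj h hq)]

end CONM

open CONM in
theorem specCON : SpecCON := by
  intro k F _ _ _ t h m hmul hadd hsurj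
  choose p q hp hq hpq using exists_rep h
  -- the value does not depend on the representation
  have hwd : ∀ (f : Fˣ) (a b : k[X]), a ≠ 0 → b ≠ 0 → (f : F) * aeval t b = aeval t a →
      m (p f) - m (q f) = m a - m b := by
    intro f a b ha hb hab
    have h1 : p f * b = a * q f := by
      apply transcendental_iff_injective.1 h.transc
      rw [map_mul, map_mul, ← hpq f, ← hab]
      ring
    have h2 := congrArg m h1
    rw [hmul _ _ (hp f) hb, hmul _ _ ha (hq f)] at h2
    omega
  have hm1 : m 1 = 0 := by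
    have h1 := hmul 1 1 one_ne_zero one_ne_zero
    rw [mul_one] at h1
    omega
  have hordmul : ∀ f g : Fˣ, m (p (f * g)) - m (q (f * g)) =
      (m (p f) - m (q f)) + (m (p g) - m (q g)) := by
    intro f g
    rw [hwd (f * g) (p f * p g) (q f * q g) (mul_ne_zero (hp f) (hp g))
      (mul_ne_zero (hq f) (hq g)) (by
        rw [map_mul, map_mul, ← hpq f, ← hpq g, Units.val_mul]; ring),
      hmul _ _ (hp f) (hp g), hmul _ _ (hq f) (hq g)]
    ring
  refine ⟨⟨fun f => m (p f) - m (q f), hordmul, ?_, ?_⟩, ?_⟩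
  · -- surjectivity
    obtain ⟨a, b, ha, hb, hab⟩ := hsurj
    obtain ⟨e, he⟩ := exists_unit h ha hb
    have he1 : m (p e) - m (q e) = 1 := by
      rw [hwd e a b ha hb he]; omega
    let φ : Fˣ →* Multiplicative ℤ :=
      { toFun := fun f => Multiplicative.ofAdd (m (p f) - m (q f))
        map_one' := by
          have h1 := hordmul 1 1
          rw [mul_one] at h1
          have h2 : m (p 1) - m (q 1) = 0 := by omega
          rw [h2]; rfl
        map_mul' := fun f g => by rw [hordmul, ofAdd_add] }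
    intro n
    refine ⟨e ^ n, ?_⟩
    have h1 : φ (e ^ n) = φ e ^ n := map_zpow φ e n
    have h2 : φ e = Multiplicative.ofAdd 1 := by
      change Multiplicative.ofAdd (m (p e) - m (q e)) = _
      rw [he1]
    rw [h2, ← ofAdd_zsmul] at h1
    have h3 : (m (p (e ^ n)) - m (q (e ^ n))) = n • (1 : ℤ) := Multiplicative.ofAdd.injective h1
    change m (p (e ^ n)) - m (q (e ^ n)) = n
    rw [h3, smul_eq_mul, mul_one]
  · -- sums
    intro f g w hfg
    have hs : p f * q g + p g * q f ≠ 0 := by
      intro h0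
      have h1 : aeval t (p f * q g + p g * q f) = 0 := by rw [h0, map_zero]
      rw [map_add, map_mul, map_mul, ← hpq f, ← hpq g] at h1
      have h2 : ((f : F) + (g : F)) * (aeval t (q f) * aeval t (q g)) = 0 := by
        rw [← h1]; ring
      rw [hfg] at h2
      exact mul_ne_zero w.ne_zero (mul_ne_zero (inj h (hq f)) (inj h (hq g))) h2
    have h1 := hwd w (p f * q g + p g * q f) (q f * q g) hs (mul_ne_zero (hq f) (hq g)) (by
      rw [map_add, map_mul, map_mul, map_mul, ← hpq f, ← hpq g, ← hfg]; ring)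
    have h2 := hadd (p f * q g) (p g * q f) (mul_ne_zero (hp f) (hq g))
      (mul_ne_zero (hp g) (hq f)) hs
    rw [hmul _ _ (hp f) (hq g), hmul _ _ (hp g) (hq f)] at h2
    change min (m (p f) - m (q f)) (m (p g) - m (q g)) ≤ m (p w) - m (q w)
    rw [h1, hmul _ _ (hq f) (hq g)]
    omega
  · intro a f hf
    change m (p f) - m (q f) = m a
    have ha : a ≠ 0 := by
      rintro rfl
      rw [map_zero] at hf
      exact f.ne_zero hf
    rw [hwd f a 1 ha one_ne_zero (by rw [map_one, mul_one, hf]), hm1, sub_zero]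

end MP743d1e.GX
end

section
/-!
# MTS: the main step in the theorem of Milnor and Tate
-/
set_option autoImplicit false

namespace MP743d1e.GX

open MP743d1e.Span

namespace MTSM

variable {F : Type} [Field F]

theorem sym_mem {S : Subgroup Fˣ} {a b : Fˣ} (ha : a ∈ S) (hb : b ∈ S) : sym a b ∈ symS S :=
  AddSubgroup.subset_closure ⟨a, ha, b, hb, rfl⟩

/-- The subgroup of the `s` with `{s, π}` in `symS S`. -/
def T (S : Subgroup Fˣ) (π : Fˣ) : Subgroup Fˣ where
  carrier := {s | s ∈ S ∧ sym s π ∈ symS S}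
  one_mem' := ⟨one_mem _, by rw [s1l]; exact zero_mem _⟩
  mul_mem' := by
    rintro a b ⟨ha, ha'⟩ ⟨hb, hb'⟩
    exact ⟨mul_mem ha hb, by rw [sml]; exact add_mem ha' hb'⟩
  inv_mem' := by
    rintro a ⟨ha, ha'⟩
    exact ⟨inv_mem ha, by rw [sil]; exact neg_mem ha'⟩

theorem tame_symS {v : DVal F} {S : Subgroup Fˣ} (hS : ∀ s ∈ S, v.ord s = 0) {z : K2 F}
    (hz : z ∈ symS S) : tame v z = 0 := by
  have h : symS S ≤ (tame v).ker := by
    unfold symS
    rw [AddSubgroup.closure_le]
    rintro _ ⟨a, ha, b, hb, rfl⟩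
    show sym a b ∈ (tame v).ker
    rw [AddMonoidHom.mem_ker, tame_sym_eq_zero]
    exact Integ.isOne_tame_units (hS a ha) (hS b hb)
  exact AddMonoidHom.mem_ker.1 (h hz)

theorem T_one {v : DVal F} {S : Subgroup Fˣ} {π : Fˣ} (hπ : v.ord π = 1)
    (hS : ∀ s ∈ S, v.ord s = 0) {s : Fˣ} (hs : s ∈ T S π) : v.IsOne s := by
  have h := tame_symS hS hs.2
  rw [tame_sym_eq_zero] at h
  have e : v.tameUnit s π = s := by
    unfold DVal.tameUnit
    rw [hπ, hS s hs.1]
    simp
  rwa [e] at h

/-- The Steinberg relation. -/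
theorem step_mem {S : Subgroup Fˣ} {π g r r' h : Fˣ} (hg : g ∈ S) (hr : r ∈ S) (hr' : r' ∈ S)
    (hh : h ∈ S) (e : (g : F) * (r : F) = (r' : F) + h * π) : g * r * r'⁻¹ ∈ T S π := by
  have h1 : sym (r' * (g * r)⁻¹) (h * π * (g * r)⁻¹) = 0 := by
    apply sst
    have hgr : ((g * r : Fˣ) : F) ≠ 0 := Units.ne_zero _
    have hg0 : (g : F) ≠ 0 := g.ne_zero
    have hr0 : (r : F) ≠ 0 := r.ne_zero
    push_cast
    field_simp
    linear_combination -e
  have h2 : sym (r' * (g * r)⁻¹) π = - sym (r' * (g * r)⁻¹) (h * (g * r)⁻¹) := by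
    have e1 : h * π * (g * r)⁻¹ = π * (h * (g * r)⁻¹) := by
      rw [mul_comm h π, mul_assoc]
    rw [e1, smr] at h1
    exact eq_neg_of_add_eq_zero_left h1
  have h3 : r' * (g * r)⁻¹ ∈ T S π := by
    refine ⟨mul_mem hr' (inv_mem (mul_mem hg hr)), ?_⟩
    rw [h2]
    exact neg_mem (sym_mem (mul_mem hr' (inv_mem (mul_mem hg hr)))
      (mul_mem hh (inv_mem (mul_mem hg hr))))
  have h4 := inv_mem h3
  have e2 : (r' * (g * r)⁻¹)⁻¹ = g * r * r'⁻¹ := by
    rw [mul_inv_rev, inv_inv]
  rwa [e2] at h4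

end MTSM

open MTSM in
theorem specMTS : SpecMTS := by
  intro F _ v S G R π hπ hS hG hR hne hmul hinj s hs hone
  have hGS : G ⊆ (S : Set Fˣ) := by
    rw [hG]
    exact Subgroup.subset_closure
  -- the product of a generator and a representative
  have key : ∀ g ∈ G, ∀ r ∈ R, ∃ r' ∈ R, g * r * r'⁻¹ ∈ T S π := by
    intro g hg r hr
    obtain ⟨r', hr', h⟩ := hmul g hg r hr
    refine ⟨r', hr', ?_⟩
    rcases h with h | ⟨h, hh, e⟩
    · rw [h, mul_inv_cancel]
      exact one_mem _
    · exact step_mem (hGS hg) (hR hr) (hR hr') hh e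
  -- the decomposition
  have dec : ∀ s ∈ S, ∃ r ∈ R, ∃ r' ∈ R, s * r' * r⁻¹ ∈ T S π := by
    intro s hs
    rw [hG] at hs
    have aux : ∀ g ∈ G, ∀ y, (∃ r ∈ R, ∃ r' ∈ R, y * r' * r⁻¹ ∈ T S π) →
        ∃ r ∈ R, ∃ r' ∈ R, g * y * r' * r⁻¹ ∈ T S π := by
      rintro g hg y ⟨r, hr, r', hr', h⟩
      obtain ⟨r2, hr2, h2⟩ := key g hg r hr
      refine ⟨r2, hr2, r', hr', ?_⟩
      have := mul_mem h2 h
      have e : g * r * r2⁻¹ * (y * r' * r⁻¹) = g * y * r' * r2⁻¹ := by
        calc g * r * r2⁻¹ * (y * r' * r⁻¹) = g * y * r' * r2⁻¹ * (r * r⁻¹) := by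
              simp only [mul_assoc, mul_left_comm, mul_comm]
          _ = g * y * r' * r2⁻¹ := by rw [mul_inv_cancel, mul_one]
      rwa [e] at this
    have aux2 : ∀ g ∈ G, ∀ y, (∃ r ∈ R, ∃ r' ∈ R, y * r' * r⁻¹ ∈ T S π) →
        ∃ r ∈ R, ∃ r' ∈ R, g⁻¹ * y * r' * r⁻¹ ∈ T S π := by
      rintro g hg y ⟨r, hr, r', hr', h⟩
      obtain ⟨r2, hr2, h2⟩ := key g hg r' hr'
      refine ⟨r, hr, r2, hr2, ?_⟩
      have := mul_mem h (inv_mem h2)
      have e : y * r' * r⁻¹ * (g * r' * r2⁻¹)⁻¹ = g⁻¹ * y * r2 * r⁻¹ := by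
        calc y * r' * r⁻¹ * (g * r' * r2⁻¹)⁻¹
            = g⁻¹ * y * r2 * r⁻¹ * (r' * r'⁻¹) := by
              rw [mul_inv_rev, mul_inv_rev, inv_inv]
              simp only [mul_assoc, mul_left_comm, mul_comm]
          _ = g⁻¹ * y * r2 * r⁻¹ := by rw [mul_inv_cancel, mul_one]
      rwa [e] at this
    induction hs using Subgroup.closure_induction_left with
    | one =>
      obtain ⟨r, hr⟩ := hne
      refine ⟨r, hr, r, hr, ?_⟩
      rw [one_mul, mul_inv_cancel]
      exact one_mem _
    | mul_left g hg y _ ih => exact aux g hg y ih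
    | inv_mul_cancel g hg y _ ih => exact aux2 g hg y ih
  obtain ⟨r, hr, r', hr', h⟩ := dec s hs
  -- the quotient of the representatives is a one-unit
  have h1 : v.IsOne (r * r'⁻¹) := by
    have h2 := T_one hπ hS h
    rw [← DVal.mem_U1] at h2 hone ⊢
    have e : r * r'⁻¹ = s * (s * r' * r⁻¹)⁻¹ := by
      rw [mul_inv_rev, mul_inv_rev, inv_inv]
      calc r * r'⁻¹ = (s * s⁻¹) * (r * r'⁻¹) := by rw [mul_inv_cancel, one_mul]
        _ = s * (r * (r'⁻¹ * s⁻¹)) := by
          simp only [mul_assoc, mul_left_comm, mul_comm]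
    rw [e]
    exact mul_mem hone (inv_mem h2)
  have h2 := hinj r hr r' hr' h1
  rw [← h2, mul_assoc, mul_inv_cancel, mul_one] at h
  exact h.2

end MP743d1e.GX
end

section
/-!
# The place of an irreducible polynomial
-/
set_option autoImplicit false

namespace MP743d1e.GX

open scoped BigOperators
open Polynomial

namespace PLFM

variable {k : Type} [Field k]

theorem fin {π p : k[X]} (hπ : Irreducible π) (hp : p ≠ 0) : FiniteMultiplicity π p :=
  FiniteMultiplicity.of_not_isUnit hπ.not_isUnit hp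

end PLFM

open PLFM in
theorem specPLF (hCON : SpecCON) : SpecPLF := by
  intro k F _ _ _ t ht π hπ
  refine hCON k F t ht (fun p => (multiplicity π p : ℤ)) ?_ ?_ ?_
  · intro p q hp hq
    have := multiplicity_mul hπ.prime (fin hπ (mul_ne_zero hp hq))
    simp only [this, Nat.cast_add]
  · intro p q hp hq hpq
    have h := min_le_emultiplicity_add (p := π) (a := p) (b := q)
    rw [(fin hπ hp).emultiplicity_eq_multiplicity, (fin hπ hq).emultiplicity_eq_multiplicity,
      (fin hπ hpq).emultiplicity_eq_multiplicity] at h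
    rw [min_le_iff] at h ⊢
    rcases h with h | h
    · left
      have h2 : multiplicity π p ≤ multiplicity π (p + q) := by exact_mod_cast h
      exact_mod_cast h2
    · right
      have h2 : multiplicity π q ≤ multiplicity π (p + q) := by exact_mod_cast h
      exact_mod_cast h2
  · refine ⟨π, 1, hπ.ne_zero, one_ne_zero, ?_⟩
    have h2 : multiplicity π (1 : k[X]) = 0 :=
      multiplicity_eq_zero.mpr fun h => hπ.not_isUnit (isUnit_of_dvd_one h)
    simp [h2]

end MP743d1e.GX
end

section
/-!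
# TWR: the plane as a tower
-/
set_option autoImplicit false

namespace MP743d1e.GX

open scoped BigOperators Classical
open Polynomial GA Integ

namespace TWRM

section Gen

variable {F K : Type} [Field F] [Field K] [Algebra F K] {x y : K}

theorem isRat_adj (h : Transcendental F x) :
    IsRat F (IntermediateField.adjoin F {x}) ⟨x, IntermediateField.mem_adjoin_simple_self F x⟩ := by
  refine ⟨?_, ?_⟩
  · intro h1
    apply h
    exact h1.algebraMap (A := K)
  · apply IntermediateField.map_injective (IntermediateField.adjoin F {x}).val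
    rw [IntermediateField.adjoin_map, Set.image_singleton, ← AlgHom.fieldRange_eq_map,
      IntermediateField.fieldRange_val]
    rfl

theorem transc_adj (h : AlgebraicIndependent F ![x, y]) : Transcendental (IntermediateField.adjoin F {x}) y := by
  have h1 := h.transcendental_adjoin (s := {0}) (i := 1) (by simp)
  have h2 : (![x, y] '' {0} : Set K) = {x} := by simp
  rw [h2] at h1
  intro h3
  exact h1 (IntermediateField.isAlgebraic_adjoin_iff.1 h3)

theorem gen_adj (h : IntermediateField.adjoin F {x, y} = ⊤) :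
    IntermediateField.adjoin (IntermediateField.adjoin F {x}) {y} = ⊤ := by
  apply IntermediateField.restrictScalars_injective F
  rw [IntermediateField.adjoin_simple_adjoin_simple, h]
  rfl

end Gen

variable {K : Type} [Field K] [Algebra ℚ K] {x y : K}

theorem isRat_x (h : IsPlane K x y) (inst : Algebra ℚ (IntermediateField.adjoin ℚ {x})) :
    @IsRat ℚ (IntermediateField.adjoin ℚ {x}) _ _ inst ⟨x, IntermediateField.mem_adjoin_simple_self ℚ x⟩ := by
  have h1 := isRat_adj (F := ℚ) (x := x) (h.indep.transcendental 0)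
  convert h1
  exact Subsingleton.elim _ _

omit [Algebra ℚ K] in
theorem b_map {k : Type} [Field k] [Algebra k K] (D : Gr) (j : Fin D.n) (x : k) :
    algebraMap k K (D.b j x) = D.b j (algebraMap k K x) := by
  unfold Gr.b
  rw [aeval_def, aeval_def, hom_eval₂]
  congr 1
  exact RingHom.ext_int _ _

end TWRM

open TWRM

theorem specTWR : SpecTWR := by
  intro D K _ _ x y lam hP hE
  refine ⟨isRat_x hP _, ⟨transc_adj hP.indep, gen_adj hP.gen⟩, ?_⟩
  rw [← hE]
  congr 1
  · congr 1
    rw [map_prod]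
    refine Finset.prod_congr rfl fun i _ => ?_
    rw [map_sub, map_intCast]
    rfl
  · refine Finset.prod_congr rfl fun j _ => ?_
    congr 1
    exact b_map D j _

end MP743d1e.GX
end
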