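import Pool.Agent.Lib.MP_743d1e_nt.GA.SpecK
import Pool.Agent.Lib.MP_743d1e_nt.Const
import Pool.Agent.Lib.MP_743d1e_nt.Kae

/-!
# Integral `K2` of the generic curve of an arrangement of graphs: definitions

The curves `lam * ∏ (x - a i) * ∏ (y - P j (x)) = 1` for variable `lam` fill the plane: the function
field of the generic curve is `ℚ(x, y)`, with `x`, `y` algebraically independent, and `lam` is an
element of it.
-/

set_option autoImplicit false

namespace MP743d1e.GX

open scoped BigOperators
open Polynomial GA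

/-- `K` is the field of rational functions over `ℚ` in the variables `x`, `y`. -/
structure IsPlane (K : Type) [Field K] [Algebra ℚ K] (x y : K) : Prop where
  indep : AlgebraicIndependent ℚ ![x, y]
  gen : IntermediateField.adjoin ℚ {x, y} = ⊤

/-- `α` has trivial tame symbol at all discrete valuations `v` with `v (lam) ≥ 0`, i.e. at all
points of codimension one of the models over the affine line over `ℤ` with the coordinate `lam`. -/
def UnramifiedOver {K : Type} [Field K] (lam : K) (α : K2 K) : Prop :=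
  ∀ v : DVal K, (lam = 0 ∨ ∃ u : Kˣ, (u : K) = lam ∧ 0 ≤ v.ord u) → tame v α = 0

/-- The conclusion for the generic curve: the elements of `K2` which are integral over `ℤ[lam]` are
the sums of an integral linear combination of the `D.g` symbols, with unique coefficients, and of a
multiple of `{-1, -1}`, which is an element of order two. -/
def ExactG (D : Gr) : Prop :=
  ∀ (K : Type) [Field K] [Algebra ℚ K] (x y lam : K), IsPlane K x y →
    lam * (∏ i, (x - (D.a i : K))) * (∏ j, (y - D.b j x)) = 1 →
    ∃ t : D.Idx → K2 K,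
      (∀ i, ∃ u w : Kˣ, (u : K) * (x - (D.a D.i0 : K)) = x - (D.ctr i : K) ∧
        (w : K) * (y - D.b (D.l2 i) x) = y - D.b (D.l1 i) x ∧ t i = sym u w) ∧
      (∀ α : K2 K, UnramifiedOver lam α ↔
        ∃ (c : D.Idx → ℤ) (ε : ℤ), α = ∑ i, c i • t i + ε • sym (-1) (-1)) ∧
      (∀ (c : D.Idx → ℤ) (ε : ℤ), ∑ i, c i • t i + ε • sym (-1) (-1) = (0 : K2 K) →
        (∀ i, c i = 0) ∧ 2 ∣ ε) ∧
      (2 : ℤ) • sym (-1 : Kˣ) (-1) = 0

/-! ## Rational function fields -/

/-- `F` is the field of rational functions over `k` in the variable `t`. -/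
structure IsRat (k F : Type) [Field k] [Field F] [Algebra k F] (t : F) : Prop where
  transc : Transcendental k t
  gen : IntermediateField.adjoin k {t} = ⊤

/-- The embedding of the units. -/
abbrev um (k F : Type) [Field k] [Field F] [Algebra k F] : kˣ →* Fˣ :=
  Units.map (algebraMap k F : k →* F)

/-- The map on `K2`. -/
noncomputable abbrev mk2 (k F : Type) [Field k] [Field F] [Algebra k F] : K2 k →+ K2 F :=
  ConstM.mapK (algebraMap k F)

section Places

variable {k F : Type} [Field k] [Field F] [Algebra k F]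

/-- `v` is the place of `k(t)` attached to the irreducible polynomial `π`. -/
def IsPl (t : F) (π : k[X]) (v : DVal F) : Prop :=
  ∀ (p : k[X]) (f : Fˣ), (f : F) = aeval t p → v.ord f = (multiplicity π p : ℤ)

variable (k) in
/-- `v` is the place of `k(t)` at infinity. -/
def IsInf (t : F) (v : DVal F) : Prop :=
  ∀ (p : k[X]) (f : Fˣ), (f : F) = aeval t p → v.ord f = -(p.natDegree : ℤ)

/-- `v` is the Gauss extension of `w` to `k(t)`: the value of a polynomial is the smallest value of
the coefficients. -/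
def IsGau (t : F) (w : DVal k) (v : DVal F) : Prop :=
  ∀ (p : k[X]) (f : Fˣ), (f : F) = aeval t p →
    (∀ (i : ℕ) (c : kˣ), (c : k) = p.coeff i → v.ord f ≤ w.ord c) ∧
      ∃ (i : ℕ) (c : kˣ), (c : k) = p.coeff i ∧ w.ord c = v.ord f

end Places

/-- The group generated by the symbols of elements of `S`. -/
def symS {F : Type} [Field F] (S : Subgroup Fˣ) : AddSubgroup (K2 F) :=
  AddSubgroup.closure {z | ∃ a ∈ S, ∃ b ∈ S, z = sym a b}

/-! ## The plane as a tower `ℚ ⊂ k = ℚ(x) ⊂ K = k(y)` -/

/-- The data of the generic curve. -/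
structure Ctx (D : Gr) (k K : Type) [Field k] [Field K] [Algebra ℚ k] [Algebra k K] (x : k)
    (y lam : K) : Prop where
  rx : IsRat ℚ k x
  ry : IsRat k K y
  eqn : lam * algebraMap k K (∏ i, (x - (D.a i : k))) * (∏ j, (y - algebraMap k K (D.b j x))) = 1

/-- `Y j = y - P j (x)`. -/
def IsY (D : Gr) {k K : Type} [Field k] [Field K] [Algebra k K] (x : k) (y : K)
    (Y : Fin D.n → Kˣ) : Prop :=
  ∀ j, (Y j : K) = y - algebraMap k K (D.b j x)

/-- `X s = x - s`. -/
def IsX {k : Type} [Field k] (x : k) (X : ℤ → kˣ) : Prop := ∀ s, (X s : k) = x - (s : k)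

/-- The element `∑_j {u j, Y j} + β`. -/
noncomputable def rep {D : Gr} {k K : Type} [Field k] [Field K] [Algebra k K]
    (Y : Fin D.n → Kˣ) (u : Fin D.n → kˣ) (β : K2 k) : K2 K :=
  ∑ j, sym (um k K (u j)) (Y j) + mk2 k K β

/-- Integral flows. -/
structure FlowZ (D : Gr) (z : Fin D.n → ℤ → ℤ) : Prop where
  supp : ∀ j s, s ∉ D.ns j → z j s = 0
  vert : ∀ i, ∑ j, z j (D.a i) = 0
  pair : ∀ j l s, j ≠ l → s ∈ D.R j l → z j s + z l s = 0
  horiz : ∀ j, ∑ s ∈ D.ns j, z j s = 0

end MP743d1e.GX
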