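import Pool.Agent.Lib.MP_743d1e_nt.GX.Defs

/-!
# Integral `K2` of the generic curve: exact statements

Module `XXX` = `Lib/MP_743d1e_nt/GX/XXX.lean`, theorem
`MP743d1e.GX.specXXX (hYYY : SpecYYY) .. : SpecXXX`, own lemmas in the namespace
`MP743d1e.GX.XXXM`, `import Pool.Agent.Lib.MP_743d1e_nt.GX.Spec`. Any Spec may be a hypothesis.

THEOREM. `D` an arrangement of graphs, `K = ℚ(x, y)`, `lam = 1 / (∏ (x - a i) ∏ (y - P j (x)))`. The
elements of `K2 K` which are unramified at all discrete valuations `v` with `v (lam) ≥ 0` form the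
group `ℤ ^ g ⊕ ℤ / 2`, generated by the `g` symbols and by `{-1, -1}`.

THE ARGUMENT. Put `k = ℚ(x)`, `Y j = y - P j (x)`. (1) Over `k`: `α` ramifies only at `Y j = 0`, the
residue field there is `k`; by the theorem of Milnor and Tate for `k(y)` (MTK),
`α = ∑ {u j, Y j} + β`, `u j ∈ kˣ`, `β ∈ K2 k`; and `∏ u j = 1` from the place at infinity (DEC).
(2) The Gauss extensions to `k(y)` of the places `φ ≠ x - a i` of `ℚ(x)`: they have
`v (lam) = 0`, so `∏ Y j ^ (-ord_φ (u j))` is a constant in the residue field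
`(ℚ[x] / φ)(y)`; hence `ord_φ (u j) = 0` unless `φ = x - r`, `r ∈ R j l`, where the orders of `u j`,
`u l` cancel; and `β` is unramified at `φ` (CFI). (3) The Gauss extensions with respect to
`Y j * x`, `Y j` of the place at infinity of `ℚ(x)`: the degree of `u j` is zero and its leading
coefficient is one (CIN). (4) The Gauss extension with respect to `y * (x - a i)` of the place
`x = a i`: `β` is unramified at `x = a i` (CVE). (5) So `u j = ∏ (x - s) ^ z j s` with an integral
flow `z`, `∑ {u j, Y j}` is an integral combination of the symbols, and `β ∈ K2 ℚ` (UNI, FLX).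
(6) The Gauss extensions of the `p`-adic valuations: `β` is in the tame kernel of `ℚ`, which is
generated by `{-1, -1}` (PAN, TAT).
-/

set_option autoImplicit false

namespace MP743d1e.GX

open scoped BigOperators Classical
open Polynomial GA Integ

/-! ## Valuations of `k(t)` -/

/-- CON [100 lines]. Construction of discrete valuations of `k(t)` (none).

Proof. Every `f : Fˣ` is `aeval t p / aeval t q`, `p, q ≠ 0` (`IntermediateField.mem_adjoin_simple_iff`,
`IsRat.gen`); put `ord f = m p - m q`. Well defined: `p / q = p' / q'` gives `p q' = p' q` (because `t`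
is transcendental: `transcendental_iff_injective`), so `m p + m q' = m p' + m q`. `ord_mul`: clear.
`ord_add`: common denominator. `surj`: `(aeval t p / aeval t q) ^ n` has the order `n`. -/
def SpecCON : Prop :=
  ∀ (k F : Type) [Field k] [Field F] [Algebra k F] (t : F), IsRat k F t → ∀ m : k[X] → ℤ,
    (∀ p q, p ≠ 0 → q ≠ 0 → m (p * q) = m p + m q) →
    (∀ p q, p ≠ 0 → q ≠ 0 → p + q ≠ 0 → min (m p) (m q) ≤ m (p + q)) →
    (∃ p q, p ≠ 0 ∧ q ≠ 0 ∧ m p = m q + 1) →
      ∃ v : DVal F, ∀ (p : k[X]) (f : Fˣ), (f : F) = aeval t p → v.ord f = m p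

/-- PLF [60 lines]. The place of an irreducible polynomial (CON).

Proof. `m p = multiplicity π p` (`multiplicity_mul`, `min_le_emultiplicity_add`,
`FiniteMultiplicity.of_not_isUnit`, `emultiplicity_eq_multiplicity`); `m π = 1`, `m 1 = 0`. -/
def SpecPLF : Prop :=
  ∀ (k F : Type) [Field k] [Field F] [Algebra k F] (t : F), IsRat k F t →
    ∀ π : k[X], Irreducible π → ∃ v : DVal F, IsPl t π v

/-- PLI [30 lines]. The place at infinity (CON).

Proof. `m p = - natDegree p`. -/
def SpecPLI : Prop :=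
  ∀ (k F : Type) [Field k] [Field F] [Algebra k F] (t : F), IsRat k F t →
    ∃ v : DVal F, IsInf k t v

/-- PLG [150 lines]. The Gauss extension (CON).

Proof. `m p = min` of the `w.ord` of the nonzero coefficients (`Finset.inf'` over `p.support`). `m` of a
sum: each coefficient of `p + q` is a sum. `m` of a product: `≥` is clear
(`Polynomial.coeff_mul`, a sum of terms of order `≥ m p + m q`; use `NN` after division by an
element of order `m p + m q`, or a lemma on the elements that are zero or of order `≥ N`, closed under sums).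
`≤`: let `i`, `j` be the smallest indices where the minimum is attained for `p`, `q`. In the
coefficient of `p * q` at `i + j` all terms `p_a q_b` with `a + b = i + j`, `(a, b) ≠ (i, j)` have
`a < i` or `b < j`, so order `> m p + m q`, and `p_i q_j` has the order `m p + m q`; so this
coefficient is not zero and has the order `m p + m q`. `m (C c) = w.ord c` gives the surjectivity. -/
def SpecPLG : Prop :=
  ∀ (k F : Type) [Field k] [Field F] [Algebra k F] (t : F), IsRat k F t → ∀ w : DVal k,
    ∃ v : DVal F, IsGau t w v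

/-- AFF [50 lines]. Change of the variable (none).

Proof. `transc`: if `aeval (c t + d) p = 0` then `aeval t (p.comp (C c * X + C d)) = 0`, so the
composition is zero, so `p = 0` (`Polynomial.comp_eq_zero_iff`, or compose with the inverse affine
map). `gen`: `t = c⁻¹ (c t + d) - c⁻¹ d` is in the field generated by `c t + d`. -/
def SpecAFF : Prop :=
  ∀ (k F : Type) [Field k] [Field F] [Algebra k F] (t : F), IsRat k F t → ∀ c d : k, c ≠ 0 →
    IsRat k F (algebraMap k F c * t + algebraMap k F d)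

/-- RSL [100 lines]. The residue field of the place `t = a` is `k` (none).

Proof. `f = aeval t p / aeval t q`; write `p = (X - C a) ^ e * p'`, `q = (X - C a) ^ e' * q'` with
`p' (a), q' (a) ≠ 0` (`Polynomial.exists_eq_pow_rootMultiplicity_mul_and_not_dvd`); `ord f = 0` gives
`e = e'`. `c = p'(a) / q'(a)`: `f / c - 1` is `aeval t (q'(a) p' - p'(a) q') / aeval t (p'(a) q')`, the
numerator is zero or divisible by `X - C a`. -/
def SpecRSL : Prop :=
  ∀ (k F : Type) [Field k] [Field F] [Algebra k F] (t : F), IsRat k F t → ∀ (a : k) (v : DVal F),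
    IsPl t (X - C a) v →
      ∀ f : Fˣ, v.ord f = 0 → ∃ c : kˣ, v.IsOne (f * (um k F c)⁻¹)

/-- TRI [60 lines]. Valuations which are trivial on the constants (none).

Proof. The order of a constant is `multiplicity π (C c) = 0`, `- natDegree (C c) = 0`. If `v` is
trivial on `kˣ` then `IsOne (um c)` gives `c = 1` (`c - 1` is zero or a unit of order zero), and
`tame v (mk2 β) = 0`: `(tame v).comp (mk2 k F)` is zero on symbols (`K2.hom_ext`,
`ConstM.mapK_sym`, `tame_sym_eq_zero`). -/
def SpecTRI : Prop :=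
  ∀ (k F : Type) [Field k] [Field F] [Algebra k F] (t : F), IsRat k F t → ∀ v : DVal F,
    ((∃ π : k[X], Irreducible π ∧ IsPl t π v) ∨ IsInf k t v) →
      (∀ c : kˣ, v.ord (um k F c) = 0) ∧ (∀ c : kˣ, v.IsOne (um k F c) → c = 1) ∧
      ∀ β : K2 k, tame v (mk2 k F β) = 0

/-- GTM [80 lines]. The tame symbol of a Gauss extension (none).

Proof. (1) `um c = aeval t (C c)`. (2) from (1): `um c - 1 = um (c - 1)`. (3) induction on `β` (a sum of
symbols and their negatives, `QuotientAddGroup.induction_on`, `FreeAbelianGroup.induction_on`):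
for `β = sym f g` take `b = w.tameUnit f g`; by (1) `v.tameUnit (um f) (um g) = um b`. -/
def SpecGTM : Prop :=
  ∀ (k F : Type) [Field k] [Field F] [Algebra k F] (t : F) (w : DVal k) (v : DVal F),
    IsGau t w v →
      (∀ c : kˣ, v.ord (um k F c) = w.ord c) ∧
      (∀ c : kˣ, v.IsOne (um k F c) ↔ w.IsOne c) ∧
      ∀ β : K2 k, ∃ b : kˣ, tame w β = Additive.ofMul (QuotientGroup.mk (s := w.U1) b) ∧
        tame v (mk2 k F β) = Additive.ofMul (QuotientGroup.mk (s := v.U1) (um k F b))

/-- RFD [60 lines]. The residue field of a discrete valuation (none).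

Proof. `O` is the subring of the elements with `NN w` (`Integ.nn_add`, ..); it is a local ring
(`a` or `1 - a` is a unit), `κ` its residue field, `ρ` the residue map; `ρ a = 0` iff `a` is not a
unit of `O` iff `Pos w a`. (Or `ValuationSubring` and `IsLocalRing.ResidueField`.) -/
def SpecRFD : Prop :=
  ∀ (k : Type) [Field k] (w : DVal k), ∃ (O : Subring k) (κ : Type) (_ : Field κ) (ρ : O →+* κ),
    (∀ a, a ∈ O ↔ NN w a) ∧ ∀ a : O, ρ a = 0 ↔ Pos w (a : k)

/-- GPR [200 lines]. One-units of the Gauss extension which are products of linear factors (RFD).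

Proof. Put `p = C b * ∏_{n j > 0} (X - C (A j)) ^ (n j)`, `q = ∏_{n j < 0} (X - C (A j)) ^ (- n j)`.
The orders of the `f j` are zero (`X - C (A j)` is monic with integral coefficients), so `w.ord b = 0`
(the order of a one-unit is zero), and `aeval t p - aeval t q` is zero or of order `≥ 1`, so all
coefficients of `p - q` satisfy `Pos w`. All the polynomials have coefficients in `O`; apply `ρ` to
them: `ρ b * ∏_{n j > 0} (X - ρ (A j)) ^ (n j) = ∏_{n j < 0} (X - ρ (A j)) ^ (- n j)` in `κ[X]`. Leading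
coefficients: `ρ b = 1`. Multiplicity of the root `ρ (A l)` (`Polynomial.roots`,
`Multiset.count`, or `rootMultiplicity`): the sum of the `n j` over the `j` with
`ρ (A j) = ρ (A l)`, i.e. `Pos w (A j - A l)`, is zero. (To work in `O[X]` define the polynomials there
and map them to `k[X]` and to `κ[X]`.) -/
def SpecGPR : Prop :=
  ∀ (k F : Type) [Field k] [Field F] [Algebra k F] (t : F) (w : DVal k) (v : DVal F),
    IsRat k F t → IsGau t w v → ∀ (r : ℕ) (A : Fin r → k) (n : Fin r → ℤ) (b : kˣ)
      (f : Fin r → Fˣ), (∀ j, NN w (A j)) → (∀ j, (f j : F) = t - algebraMap k F (A j)) →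
      v.IsOne (um k F b * ∏ j, f j ^ n j) →
        w.IsOne b ∧ ∀ l, ∑ j ∈ Finset.univ.filter (fun j => Pos w (A j - A l)), n j = 0

/-! ## The theorem of Milnor and Tate -/

/-- MTS [100 lines]. The main step (none).

Proof. Let `T` be the subgroup of the `s ∈ S` with `sym s π ∈ symS S`. (a) `T ⊆ U1`: `v` is zero on
`S`, so `tame v` is zero on `symS S`, and `tameUnit s π = s`. (b) If `g r = r'` or
`g r = r' + h π` with `h ∈ S` then `g r / r' ∈ T`: in the second case `r' / (g r) + h π / (g r) = 1`, so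
`0 = {r' / (g r), h π / (g r)} = {r' / (g r), h / (g r)} + {r' / (g r), π}`. (c) Every `s ∈ S` is
`r r'⁻¹ τ` with `r, r' ∈ R`, `τ ∈ T` (`Subgroup.closure_induction`, the set of these `s` is
stable under multiplication by `g` and by `g⁻¹`, `g ∈ G`; it contains `1` because `R` is not empty).
(d) If `s` is a one-unit, so is `r r'⁻¹ = s τ⁻¹` by (a), so `r = r'` and `s = τ ∈ T`. -/
def SpecMTS : Prop :=
  ∀ (F : Type) [Field F] (v : DVal F) (S : Subgroup Fˣ) (G R : Set Fˣ) (π : Fˣ), v.ord π = 1 →
    (∀ s ∈ S, v.ord s = 0) → S = Subgroup.closure G → R ⊆ (S : Set Fˣ) → R.Nonempty →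
    (∀ g ∈ G, ∀ r ∈ R, ∃ r' ∈ R, g * r = r' ∨ ∃ h ∈ S, (g : F) * (r : F) = (r' : F) + h * π) →
    (∀ r ∈ R, ∀ r' ∈ R, v.IsOne (r * r'⁻¹) → r = r') →
      ∀ s ∈ S, v.IsOne s → sym s π ∈ symS S

/-- MTK [250 lines]. The theorem of Milnor and Tate for `k(t)` (MTS, PLF).

Proof. `S d` = group generated by the `aeval t p`, `p ≠ 0`, `natDegree p < d` (and `S 0 = S 1 = kˣ`).
Every symbol is in `symS (S d)` for some `d`, and `symS (S 1)` is the image of `K2 k`. Step: if
`α ∈ symS (S (d + 1))`, `d ≥ 1`, is unramified at the places of all monic irreducible `π` of degree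
`d`, then `α ∈ symS (S d)`. Proof of the step: a polynomial of degree `d` is reducible (then it is in
`S d`) or a constant times a monic irreducible `π`. So `S (d + 1)` is generated by `S d` and these
`π`. `{π, π'} = {π, h} - {π', h} + {π', -1}` for `π' = π + h`, `h ≠ 0` of degree `< d`
(`0 = {π / π', h / π'}`), `{π, π} = {π, -1}`. So `α = ∑_{π ∈ Π} {s π, π} + α'`, `Π` a finite set,
`s π ∈ S d`, `α' ∈ symS (S d)` (the set of these `α` is a subgroup and contains the symbols of two
generators of `S (d + 1)`; bilinearity, `Subgroup.closure_induction`). At the place of `π ∈ Π` only the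
term `{s π, π}` contributes, so `s π` is a one-unit there. MTS with `S = S d`, `G = R` = the polynomials
`≠ 0` of degree `< d` gives `{s π, π} ∈ symS (S d)`: `p p' = π h + r'` (division with remainder; the
remainder is not zero because `π` is prime and does not divide `p`, `p'`; `h = 0` or of degree `< d`),
and if `r / r'` is a one-unit then `π ∣ r - r'`, so `r = r'`. -/
def SpecMTK : Prop :=
  ∀ (k F : Type) [Field k] [Field F] [Algebra k F] (t : F), IsRat k F t → ∀ α : K2 F,
    (∀ π : k[X], π.Monic → Irreducible π → ∀ v : DVal F, IsPl t π v → tame v α = 0) →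
      ∃ β : K2 k, mk2 k F β = α

/-- PAD [40 lines]. The `p`-adic valuation of `ℚ` (none).

Proof. `padicValRat.mul`, `padicValRat.min_le_padicValRat_add`; `padicValRat p (p ^ n) = n`. -/
def SpecPAD : Prop :=
  ∀ p : ℕ, p.Prime → ∃ w : DVal ℚ, ∀ q : ℚˣ, w.ord q = padicValRat p (q : ℚ)

/-- TAT [200 lines]. The tame kernel of `ℚ` (MTS, PAD).

Proof. `S n` = group generated by `-1` and the natural numbers `1, .., n`. Every symbol is in
`symS (S n)` for some `n`. If `n + 1` is not a prime then `S (n + 1) = S n`. If `p = n + 1` is a prime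
then every element of `symS (S p)` is `{s, p} + α'` with `s ∈ S n`, `α' ∈ symS (S n)` (`{p, p} =
{-1, p}`); if it is unramified at `p` then `s` is a one-unit, and `{s, p} ∈ symS (S n)` by MTS with
`R = {1, .., p - 1}`, `G = {-1} ∪ R`: `-r = (p - r) - p`, and `r r' = r'' + h p` with
`1 ≤ r'' ≤ p - 1`, `0 ≤ h ≤ p - 1`; if `r / r'` is a one-unit then `p ∣ r - r'`. So an element
of the tame kernel is in `symS (S 1)`, `S 1 = {1, -1}`, which consists of `0` and `{-1, -1}`
(`2 {-1, -1} = {1, -1} = 0`). -/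
def SpecTAT : Prop :=
  ∀ β : K2 ℚ, (∀ p : ℕ, p.Prime → ∀ w : DVal ℚ, (∀ q : ℚˣ, w.ord q = padicValRat p (q : ℚ)) →
    tame w β = 0) → β = 0 ∨ β = sym (-1) (-1)

/-! ## The five kinds of valuations of the plane -/

section Steps

/-- DEC [200 lines]. Decomposition of an element (MTK, PLF, PLI, RSL, TRI).

Proof. Let `π j = X - C (b j x)`, `v j` its place. For a place `v` of a monic irreducible polynomial
`π` different from all `π j` the orders of the constants `x - a i` and of the `Y j = aeval y (π j)` are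
`0`, so `v (lam) = 0` and `tame v α = 0`. By RSL there is `u j` with
`tame (v j) α = [um (u j)] = tame (v j) (sym (um (u j)) (Y j))` (`tame` is the class of an
element of order zero: represent `α`; all `v` with `IsPl y (π j) v` have the same orders). Put
`α' = α - ∑ sym (um (u j)) (Y j)`: it is unramified at all places of monic irreducible polynomials
(`Y l` is a unit at `v j` for `l ≠ j`, because `b l x ≠ b j x`: `D.diff`, `x` is transcendental), so
`α' = mk2 β` by MTK. At infinity: `v (Y j) = -1`, `v (lam) = n ≥ 0`, so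
`0 = tame v α = [um (∏ u j)⁻¹]`, and `∏ u j = 1` by TRI. -/
def SpecDEC : Prop :=
  ∀ (D : Gr) (k K : Type) [Field k] [Field K] [Algebra ℚ k] [Algebra k K] (x : k) (y lam : K)
    (Y : Fin D.n → Kˣ), Ctx D k K x y lam → IsY D x y Y → ∀ α : K2 K, UnramifiedOver lam α →
      ∃ (u : Fin D.n → kˣ) (β : K2 k), α = rep Y u β ∧ ∏ j, u j = 1

/-- CFI [150 lines]. The places `φ ≠ x - a i` (PLG, GTM, GPR).

Proof. `v` = Gauss extension of `w` with `t = y` (PLG). `w` is `≥ 0` on `ℤ[x]`, `w (x - a i) = 0`
(`φ` does not divide `X - C (a i)`), `v (Y j) = 0` (monic with integral coefficients), so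
`v (lam) = 0`. `tame v {u j, Y j} = [Y j ^ (- w (u j))]`, `tame v (mk2 β) = [um b]`,
`tame w β = [b]` (GTM). So `um b * ∏ Y j ^ (- w (u j))` is a one-unit; apply GPR with
`A j = b j x`, `f j = Y j`. -/
def SpecCFI : Prop :=
  ∀ (D : Gr) (k K : Type) [Field k] [Field K] [Algebra ℚ k] [Algebra k K] (x : k) (y lam : K)
    (Y : Fin D.n → Kˣ), Ctx D k K x y lam → IsY D x y Y → ∀ (u : Fin D.n → kˣ) (β : K2 k),
      UnramifiedOver lam (rep Y u β) → ∀ φ : ℚ[X], φ.Monic → Irreducible φ →
        (∀ i, φ ≠ X - C (D.a i : ℚ)) → ∀ w : DVal k, IsPl x φ w →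
          tame w β = 0 ∧
          ∀ l, ∑ j ∈ Finset.univ.filter (fun j => Pos w (D.b j x - D.b l x)), w.ord (u j) = 0

/-- CIN [250 lines]. The place at infinity (PLG, AFF, GTM, GPR, STG).

Proof. Fix `j`; `B l = b j x - b l x ∈ kˣ` for `l ≠ j`, `w (B l) = - (R j l).card ≤ 0`,
`Y l = Y j + um (B l)`. For `e = 0, 1` let `t = x ^ e * Y j`, `IsRat k K t` (AFF), `v` the Gauss extension
of `w` with respect to `t`; `v (t) = 0`, `v (x) = -1`, `v (Y j) = e`, `v (Y l) = w (B l)`
for `l ≠ j` (`Y l = x ^ (-e) * t + B l`: smallest of `e` and `w (B l) ≤ 0`), so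
`v (lam) = m - e - ∑ w (B l) ≥ 0`. `e = 1`: `Y l / B l` is a one-unit (`Y l / B l - 1 = Y j / B l` has
the order `≥ 1`), so `tame v {u l, Y l} = tame v {u l, B l}`, and
`0 = tame v (rep Y u β) = tame v {u j, t} + tame v (mk2 γ)`,
`γ = β - {u j, x} + ∑_{l ≠ j} {u l, B l}`. Here `{u j, t}` gives `[t ^ (- w (u j))]`; GPR
(with one linear factor, `A = 0`) gives `w (u j) = 0` and `tame w γ = 0`. This holds for all `j`, so
all `w (u l)` are zero. `e = 0`: `tame v {u j, Y j} = 0` (both are units); if `w (B l) < 0` then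
`Y l / B l` is a one-unit, and if `w (B l) = 0` then `Y l`, `B l`, `u l` are units; so
`tame v {u l, Y l} = tame v {u l, B l}`, and `0 = tame v (mk2 (γ + {u j, x}))`. So
`tame w (γ + {u j, x}) = 0`, hence `tame w {u j, x} = 0`; its tame unit is
`u j ^ (w x) = (u j)⁻¹`, so `u j` is a one-unit. -/
def SpecCIN : Prop :=
  ∀ (D : Gr) (k K : Type) [Field k] [Field K] [Algebra ℚ k] [Algebra k K] (x : k) (y lam : K)
    (Y : Fin D.n → Kˣ), Ctx D k K x y lam → IsY D x y Y → ∀ (u : Fin D.n → kˣ) (β : K2 k),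
      UnramifiedOver lam (rep Y u β) → ∀ w : DVal k, IsInf ℚ x w →
        ∀ j, w.ord (u j) = 0 ∧ w.IsOne (u j)

/-- CVE [150 lines]. The places `x = a i` (PLG, AFF, GTM).

Proof. `ρ = x - a i`, `w ρ = 1`, `w (x - a i') = 0` for `i' ≠ i`, `t = ρ * y` (AFF), `v` the Gauss
extension of `w` with respect to `t`. `Y l = t ρ⁻¹ (1 - ρ (b l x) / t)`, the last factor is a one-unit
(`w (b l x) ≥ 0` or `b l x = 0`), so `v (Y l) = -1`, `v (lam) = n - 1 ≥ 0` and
`tame v {u l, Y l} = tame v {u l, t ρ⁻¹}`. Sum over `l`: `{∏ u l, t ρ⁻¹} = 0`. So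
`0 = tame v (rep Y u β) = tame v (mk2 β)`, and `tame w β = 0` by GTM. -/
def SpecCVE : Prop :=
  ∀ (D : Gr) (k K : Type) [Field k] [Field K] [Algebra ℚ k] [Algebra k K] (x : k) (y lam : K)
    (Y : Fin D.n → Kˣ), Ctx D k K x y lam → IsY D x y Y → ∀ (u : Fin D.n → kˣ) (β : K2 k),
      UnramifiedOver lam (rep Y u β) → ∏ j, u j = 1 → ∀ (i : Fin D.m) (w : DVal k),
        IsPl x (X - C (D.a i : ℚ)) w → tame w β = 0

/-- PAN [120 lines]. The `p`-adic valuations (PLG, GTM).

Proof. `w'` = Gauss extension of `w` with respect to `x`, `v` = Gauss extension of `w'` with respect to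
`y`. `x - a i` and `Y j` are monic with integral coefficients (`w'` is `≥ 0` on `ℤ[x]`), so their
orders are zero and `v (lam) = 0`. `0 = tame v (mk2 (mk2 β))`, so `tame w' (mk2 β) = 0` and
`tame w β = 0` by GTM (2), (3). -/
def SpecPAN : Prop :=
  ∀ (D : Gr) (k K : Type) [Field k] [Field K] [Algebra ℚ k] [Algebra k K] (x : k) (y lam : K),
    Ctx D k K x y lam → ∀ β : K2 ℚ, UnramifiedOver lam (mk2 k K (mk2 ℚ k β)) →
      ∀ p : ℕ, p.Prime → ∀ w : DVal ℚ, (∀ q : ℚˣ, w.ord q = padicValRat p (q : ℚ)) →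
        tame w β = 0

end Steps

/-! ## Conclusions -/

/-- PRD [200 lines]. Functions with given orders (PLF, PLI, TRI).

Proof. `u' = u * (∏_{s ∈ S} X s ^ z s)⁻¹` has order zero at the places of all monic irreducible `φ`
(`X s` has the order `1` at `X - C s` and `0` at the other ones). `u' = aeval x p / aeval x q`, `p`, `q`
coprime; a monic irreducible divisor `φ` of `p` would give a place with `u'` of positive order
(`φ ∤ q`), so `p` is constant, and `q` too. So `u = c ∏ X s ^ z s` with `c` a constant. At infinity: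
`0 = w (u) = - ∑ z s`. So `∏ X s ^ z s = ∏ (X s / x) ^ z s` is a one-unit (`X s / x - 1 = - s / x`), so
`c` is a one-unit and `c = 1` by TRI. -/
def SpecPRD : Prop :=
  ∀ (k : Type) [Field k] [Algebra ℚ k] (x : k), IsRat ℚ k x → ∀ X' : ℤ → kˣ, IsX x X' →
    ∀ (u : kˣ) (S : Finset ℤ) (z : ℤ → ℤ),
      (∀ φ : ℚ[X], φ.Monic → Irreducible φ → (∀ s ∈ S, φ ≠ X - C (s : ℚ)) →
        ∀ w : DVal k, IsPl x φ w → w.ord u = 0) →
      (∀ s ∈ S, ∀ w : DVal k, IsPl x (X - C (s : ℚ)) w → w.ord u = z s) →
      (∀ w : DVal k, IsInf ℚ x w → w.ord u = 0 ∧ w.IsOne u) →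
        ∑ s ∈ S, z s = 0 ∧ u = ∏ s ∈ S, X' s ^ z s

/-- UNI [200 lines]. The units are given by a flow and the constant part comes from `ℚ` (PLF, MTK, CFI,
CIN, CVE, PRD, STG).

Proof. `w s` = place of `X - C s` on `k`; `z j s = (w s).ord (u j)` for `s ∈ ns j` and `0`
otherwise. For a monic irreducible `φ` and `l ≠ j`: `b l x - b j x = κ ∏_{r ∈ R l j} (x - r)` has
positive order at `φ` iff `φ = X - C r` for some `r ∈ R j l`. If `φ ≠ X - C s` for all `s ∈ ns j`
then the sum of CFI for `j` has the only term `j`, so `u j` has order zero at `φ`. `pair`: at `s ∈ R j l`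
(not an `a i`) the sum has exactly the two terms `j`, `l` (STG (4)). `vert`: `∏ u j = 1`. `horiz` and
`u j = ∏ X s ^ z j s`: PRD with `S = ns j` and CIN. `β` is unramified at the place of every monic
irreducible `φ` by CFI (if `φ ≠ X - C (a i)` for all `i`) or CVE, so it comes from `ℚ` by MTK. -/
def SpecUNI : Prop :=
  ∀ (D : Gr) (k K : Type) [Field k] [Field K] [Algebra ℚ k] [Algebra k K] (x : k) (y lam : K)
    (Y : Fin D.n → Kˣ) (X' : ℤ → kˣ), Ctx D k K x y lam → IsY D x y Y → IsX x X' →
      ∀ (u : Fin D.n → kˣ) (β : K2 k), UnramifiedOver lam (rep Y u β) → ∏ j, u j = 1 →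
        (∃ z, FlowZ D z ∧ ∀ j, u j = ∏ s ∈ D.ns j, X' s ^ z j s) ∧ ∃ β' : K2 ℚ, mk2 ℚ k β' = β

/-- The integral version of `cyc`. -/
def cycZ (D : Gr) (i : D.Idx) (j : Fin D.n) (s : ℤ) : ℤ :=
  ((if D.l1 i = j then 1 else 0) - (if D.l2 i = j then 1 else 0)) *
    ((if D.ctr i = s then 1 else 0) - (if D.a D.i0 = s then 1 else 0))

/-- FLX [150 lines]. Flows and symbols (COF).

Proof. (1), (2): COF (3), (4) for the real numbers `c i` (casts; `zv` with `cyc = cycZ`). (3) For one
symbol: `cycZ i j s` is zero unless `s ∈ ns j` (COF (2) for a unit vector: `Flow.supp`), so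
`∑_j sym (um (∏_{s ∈ ns j} X s ^ cycZ i j s)) (Y j) = ∑_j ([l1 = j] - [l2 = j]) sym (um (X (ctr i) /
X (a 0))) (Y j) = sym (um (X (ctr i) / X (a 0))) (Y (l1 i) / Y (l2 i))` (bilinearity: `Span.sml`,
`Span.smr`, `Span.sdr`; for `j = l1 i` the product is `X (ctr i) / X (a 0)`, because
`ctr i ≠ a 0` or both exponents cancel). Then linear combinations. -/
def SpecFLX : Prop :=
  ∀ (D : Gr) (k K : Type) [Field k] [Field K] [Algebra k K] (Y : Fin D.n → Kˣ) (X' : ℤ → kˣ),
    (∀ z, FlowZ D z → ∀ j s, ∑ i, z (D.l1 i) (D.ctr i) * cycZ D i j s = z j s) ∧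
    (∀ (c : D.Idx → ℤ) i', ∑ i, c i * cycZ D i (D.l1 i') (D.ctr i') = c i') ∧
    ∀ c : D.Idx → ℤ, ∑ i, c i • sym (um k K (X' (D.ctr i) * (X' (D.a D.i0))⁻¹))
        (Y (D.l1 i) * (Y (D.l2 i))⁻¹) =
      ∑ j, sym (um k K (∏ s ∈ D.ns j, X' s ^ (∑ i, c i * cycZ D i j s))) (Y j)

/-- INL [150 lines]. The symbols are integral over `ℤ[lam]` (none; `T/INT.lean`).

Proof. As `TInt.tame_fG`, `TInt.tame_phi` for `a = b = 1` (or `specInteg` in `Integ.lean`), with `lam`
instead of a constant: only `NN v lam` is used. If `NN v x` and `NN v y`: `x - a i` and `y - P j` are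
integral factors of `1`, so units; `w` is a unit; `u` is a unit or (`x - c` of positive order, `c ∈ R j l`)
`w - 1 = (P (l2) - P (l1)) / (y - P (l2))` has positive order. If `x` is not integral, `u` is a
one-unit; if `x` is integral and `y` is not, `w` is a one-unit (`Integ.isOne_of_not_nn_x`,
`Integ.isOne_of_not_nn_y`). -/
def SpecINL : Prop :=
  ∀ (D : Gr) (K : Type) [Field K] (x y lam : K),
    lam * (∏ i, (x - (D.a i : K))) * (∏ j, (y - D.b j x)) = 1 →
    ∀ (i : D.Idx) (u w : Kˣ), (u : K) * (x - (D.a D.i0 : K)) = x - (D.ctr i : K) →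
      (w : K) * (y - D.b (D.l2 i) x) = y - D.b (D.l1 i) x → UnramifiedOver lam (sym u w)

/-- IND [150 lines]. The symbols are independent (PLF, TRI, FLX).

Proof. Let `z j s = ∑ c i cycZ i j s`, `u j = ∏_{s ∈ ns j} X s ^ z j s`. By FLX (3)
`∑ {u j, Y j} + ε {-1, -1} = 0`. Take `tame` at the place `v` of `X - C (b j x)` on `k(y)`: the other
`Y l` are units (`b l x ≠ b j x`), constants are units, so `um (u j)` is a one-unit and `u j = 1` by
TRI. The order of `u j` at the place of `X - C s` on `k`, `s ∈ ns j`, is `z j s`, so `z j s = 0` for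
`s ∈ ns j`. By FLX (2) `c i = z (l1 i) (ctr i) = 0` (`ctr i ∈ ns (l1 i)`: COF, or
`cycZ i (l1 i) (ctr i) ≠ 0`). -/
def SpecIND : Prop :=
  ∀ (D : Gr) (k K : Type) [Field k] [Field K] [Algebra ℚ k] [Algebra k K] (x : k) (y lam : K)
    (Y : Fin D.n → Kˣ) (X' : ℤ → kˣ), Ctx D k K x y lam → IsY D x y Y → IsX x X' →
      ∀ (c : D.Idx → ℤ) (ε : ℤ), ∑ i, c i • sym (um k K (X' (D.ctr i) * (X' (D.a D.i0))⁻¹))
        (Y (D.l1 i) * (Y (D.l2 i))⁻¹) + ε • sym (-1) (-1) = 0 → ∀ i, c i = 0

/-- A sign on the field `F`. -/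
def HasSign (F : Type) [Field F] : Prop :=
  ∃ σ : Fˣ →* ℤˣ, σ (-1) = -1 ∧ ∀ f g h : Fˣ, (f : F) + g = h → σ f = 1 → σ g = 1 → σ h = 1

/-- SGN [120 lines]. Signs (none).

Proof. (1) `ℚ`: the sign of a rational number. (2) `k(t)`: the sign of `aeval t p / aeval t q` is
`σ (lead p) * σ (lead q)` (well defined as in CON). If `f`, `g` are positive, write `f = p / q`,
`g = p' / q'`, with `lead q`, `lead q'` positive (multiply by `-1`); then `lead p`, `lead p'` are
positive and so is the leading coefficient of `p q' + p' q` (if the degrees are equal it is a sum of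
two positive elements, which is not zero: if `a + b = 0`, `σ a = σ b = 1` then
`σ a = σ (-b) = - σ b`). (3) `{-1, -1} ≠ 0`: the map `f, g ↦ χ f * χ g ∈ ZMod 2`, `χ f = 0` iff
`σ f = 1`, is bilinear, and zero if `f + g = 1` (otherwise `-f`, `-g` are positive with the sum
`-1`); `K2.lift`. -/
def SpecSGN : Prop :=
  HasSign ℚ ∧
  (∀ (k F : Type) [Field k] [Field F] [Algebra k F] (t : F), IsRat k F t → HasSign k →
    HasSign F) ∧
  ∀ (F : Type) [Field F], HasSign F → (sym (-1 : Fˣ) (-1)) ≠ 0

/-- TWR [100 lines]. The plane as a tower (none).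

Proof. `k = ℚ(x)`. `x` is transcendental over `ℚ` and `y` over `k`: `AlgebraicIndependent` for
`![x, y]` (`algebraicIndependent_fin_succ..`, `AlgebraicIndependent.transcendental..`, or directly
with `MvPolynomial`; see also `IntermediateField.algebraAdjoinAdjoin`). `gen`: the subfield of `K`
generated by `k` and `y` contains `x`, `y` (`IntermediateField.restrictScalars`,
`IntermediateField.adjoin_adjoin_left`). In `ℚ(x)` the element `x` generates
(`IntermediateField.adjoin_simple..`, `lift`); `D.b j` and products commute with `algebraMap`. -/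
def SpecTWR : Prop :=
  ∀ (D : Gr) (K : Type) [Field K] [Algebra ℚ K] (x y lam : K), IsPlane K x y →
    lam * (∏ i, (x - (D.a i : K))) * (∏ j, (y - D.b j x)) = 1 →
      Ctx D (IntermediateField.adjoin ℚ {x}) K
        ⟨x, IntermediateField.mem_adjoin_simple_self ℚ x⟩ y lam

/-- EXG [150 lines]. The conclusion (all).

Proof. `X s = x - s`, `Y j = y - b j`, `t i = {X (ctr i) / X (a 0), Y (l1 i) / Y (l2 i)}`. If `α` is
unramified: DEC, UNI, FLX (1), (3) give `α = ∑ c i • t i + mk2 (mk2 β')`; by INL the last term is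
unramified over `lam`, so PAN, TAT give `β' = 0` or `{-1, -1}`. Conversely INL and
`tameUnit (-1) (-1) = 1`. Uniqueness: IND; then `ε • {-1, -1} = 0`, and `{-1, -1} ≠ 0` (SGN) has order
two, so `ε` is even. -/
def SpecEXG : Prop := ∀ D : Gr, ExactG D

end MP743d1e.GX
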